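import Mathlib

/-!
# Eternal domination number of a Cartesian product: the independence number of one factor

Let `F` be an eternal dominating family of `G □ H` with `T` guards and `I` an independent set of `H`. Take a state
`D` in `F` with the largest number of guards in the layers `G × {h}`, `h ∈ I`. An attack in such a layer is answered by
a guard of the same layer (the adjacent layers are not among the layers of `I`). So the states reachable by attacks
in the layers of `I` have the same number of guards in each of these layers, and their traces on a layer form an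
eternal dominating family of `G`.
-/

set_option autoImplicit false

namespace Pool.Agent.Lib.MP_56aee0_co

/-- The eternal domination number in the model in which one guard moves (the number in the problem):
the least `k` for which there is a nonempty family `F` of sets of `k` vertices such that, from every state `D` in `F`,
every attack `v` is answered by a guard `u` in `D` standing on `v` or adjacent to `v`, who moves to `v` so that the
new state is again in `F`. -/
noncomputable def edn {V : Type} [DecidableEq V] (G : SimpleGraph V) : ℕ :=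
  sInf {k : ℕ | ∃ F : Set (Finset V), F.Nonempty ∧ ∀ D ∈ F, D.card = k ∧
    ∀ v : V, ∃ u ∈ D, (u = v ∨ G.Adj u v) ∧ insert v (D.erase u) ∈ F}

section
variable {V W : Type} [Fintype V] [DecidableEq V] [Fintype W] [DecidableEq W]

theorem edn_exists (G : SimpleGraph V) : ∃ F : Set (Finset V), F.Nonempty ∧
    ∀ D ∈ F, D.card = edn G ∧
      ∀ v : V, ∃ u ∈ D, (u = v ∨ G.Adj u v) ∧ insert v (D.erase u) ∈ F := by
  have h : ({k : ℕ | ∃ F : Set (Finset V), F.Nonempty ∧ ∀ D ∈ F, D.card = k ∧
    ∀ v : V, ∃ u ∈ D, (u = v ∨ G.Adj u v) ∧ insert v (D.erase u) ∈ F}).Nonempty := by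
    refine ⟨Fintype.card V, {Finset.univ}, ⟨_, rfl⟩, ?_⟩
    rintro D rfl
    refine ⟨Finset.card_univ, fun v => ⟨v, Finset.mem_univ v, Or.inl rfl, ?_⟩⟩
    rw [Set.mem_singleton_iff, Finset.insert_erase (Finset.mem_univ v)]
  exact Nat.sInf_mem h

omit [Fintype V] in
theorem edn_le {G : SimpleGraph V} {k : ℕ} {F : Set (Finset V)} (hF : F.Nonempty)
    (h : ∀ D ∈ F, D.card = k ∧
      ∀ v : V, ∃ u ∈ D, (u = v ∨ G.Adj u v) ∧ insert v (D.erase u) ∈ F) : edn G ≤ k :=
  Nat.sInf_le ⟨F, hF, h⟩

/-- the trace of a state on the layer `G × {h}` -/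
def tr (D : Finset (V × W)) (h : W) : Finset V :=
  Finset.univ.filter fun g => (g, h) ∈ D

omit [Fintype W] [DecidableEq V] in
theorem card_tr_sum [DecidableEq V] (D : Finset (V × W)) (I : Finset W) :
    ∑ h ∈ I, (tr D h).card = (D.filter fun p => p.2 ∈ I).card := by
  classical
  rw [Finset.card_eq_sum_card_fiberwise (f := fun p : V × W => p.2) (t := I)]
  · refine Finset.sum_congr rfl fun h hh => ?_
    refine Finset.card_bij (fun g _ => (g, h)) ?_ ?_ ?_
    · intro g hg
      simp only [tr, Finset.mem_filter, Finset.mem_univ, true_and] at hg ⊢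
      exact ⟨⟨hg, hh⟩, trivial⟩
    · intro g _ g' _ hgg
      exact congrArg Prod.fst hgg
    · rintro ⟨g, h'⟩ hp
      simp only [Finset.mem_filter] at hp
      obtain ⟨⟨hp1, hp2⟩, rfl⟩ := hp
      exact ⟨g, by simp [tr, hp1], rfl⟩
  · intro p hp
    simp only [Finset.coe_filter, Set.mem_ofPred_eq] at hp ⊢
    exact hp.2

/-- **Main lemma.** -/
theorem edn_boxProd_ge (G : SimpleGraph V) (H : SimpleGraph W) (I : Finset W)
    (hI : ∀ h ∈ I, ∀ h' ∈ I, ¬ H.Adj h h') : I.card * edn G ≤ edn (G.boxProd H) := by
  classical
  obtain ⟨F, ⟨D0, hD0⟩, hF⟩ := edn_exists (G.boxProd H)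
  -- a state with the largest number of guards in the layers of `I`
  obtain ⟨D1, hD1, hmax⟩ : ∃ D1 ∈ F, ∀ D ∈ F,
      (D.filter fun p => p.2 ∈ I).card ≤ (D1.filter fun p => p.2 ∈ I).card := by
    have hfin : (F : Set (Finset (V × W))).Finite := Set.toFinite F
    obtain ⟨D1, hD1, h⟩ := hfin.exists_maximalFor
      (fun D : Finset (V × W) => (D.filter fun p : V × W => p.2 ∈ I).card) F ⟨D0, hD0⟩
    refine ⟨D1, hD1, fun D hD => ?_⟩
    by_contra hcon
    exact hcon (h hD (not_le.mp hcon).le)
  -- the family of the states with the same numbers of guards in all layers of `I`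
  let F1 : Set (Finset (V × W)) := {D | D ∈ F ∧ ∀ h ∈ I, (tr D h).card = (tr D1 h).card}
  have hF1 : D1 ∈ F1 := ⟨hD1, fun _ _ => rfl⟩
  -- an attack in a layer of `I` is answered in this layer
  have key : ∀ D ∈ F1, ∀ h ∈ I, ∀ g : V, ∃ u ∈ tr D h, (u = g ∨ G.Adj u g) ∧
      ∃ D' ∈ F1, tr D' h = insert g ((tr D h).erase u) := by
    rintro D ⟨hD, hDt⟩ h hh g
    obtain ⟨⟨u, w⟩, hu, hadj, hnew⟩ := (hF D hD).2 (g, h)
    have hDsum : (D.filter fun p => p.2 ∈ I).card = (D1.filter fun p => p.2 ∈ I).card := by
      rw [← card_tr_sum, ← card_tr_sum]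
      exact Finset.sum_congr rfl hDt
    -- the guard comes from the same layer
    by_cases hg : (g, h) ∈ D
    · -- occupied vertex: the state with `u = g` does not change
      refine ⟨g, by simp [tr, hg], Or.inl rfl, D, ⟨hD, hDt⟩, ?_⟩
      rw [Finset.insert_erase]
      simp [tr, hg]
    · have hw : w = h := by
        rcases hadj with he | he
        · exact congrArg Prod.snd he
        · rw [SimpleGraph.boxProd_adj] at he
          rcases he with ⟨_, he⟩ | ⟨he, _⟩
          · exact he
          · exfalso
            have hwI : w ∉ I := fun hwI => hI w hwI h hh he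
            have hlt : (D.filter fun p => p.2 ∈ I).card <
                ((insert (g, h) (D.erase (u, w))).filter fun p => p.2 ∈ I).card := by
              apply Finset.card_lt_card
              rw [Finset.ssubset_iff_of_subset]
              · refine ⟨(g, h), ?_, ?_⟩
                · simp [hh]
                · simp [hg]
              · intro p hp
                rw [Finset.mem_filter] at hp ⊢
                refine ⟨?_, hp.2⟩
                rw [Finset.mem_insert, Finset.mem_erase]
                refine Or.inr ⟨?_, hp.1⟩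
                rintro rfl
                exact hwI hp.2
            have := hmax _ hnew
            omega
      subst hw
      have htr : ∀ h' : W, tr (insert (g, w) (D.erase (u, w))) h' =
          if h' = w then insert g ((tr D w).erase u) else tr D h' := by
        intro h'
        by_cases e : h' = w
        · subst e
          rw [if_pos rfl]
          ext x
          simp [tr, Prod.ext_iff]
        · rw [if_neg e]
          ext x
          simp [tr, Prod.ext_iff, e]
      have huD : u ∈ tr D w := by simp [tr, hu]
      have hgD : g ∉ tr D w := by simp [tr, hg]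
      refine ⟨u, huD, ?_, insert (g, w) (D.erase (u, w)), ⟨hnew, ?_⟩, ?_⟩
      · rcases hadj with he | he
        · exact Or.inl (congrArg Prod.fst he)
        · rw [SimpleGraph.boxProd_adj] at he
          rcases he with ⟨he, _⟩ | ⟨he, _⟩
          · exact Or.inr he
          · exact absurd he (H.irrefl)
      · intro h' hh'
        rw [htr, ← hDt h' hh']
        by_cases e : h' = w
        · rw [if_pos e, e, Finset.card_insert_of_notMem, Finset.card_erase_of_mem huD]
          · have := Finset.card_pos.mpr ⟨u, huD⟩
            omega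
          · intro hcon
            exact hgD (Finset.mem_of_mem_erase hcon)
        · rw [if_neg e]
      · rw [htr, if_pos rfl]
  -- the traces on a layer form an eternal dominating family
  have hlayer : ∀ h ∈ I, edn G ≤ (tr D1 h).card := by
    intro h hh
    refine edn_le (F := {X | ∃ D ∈ F1, X = tr D h}) ⟨tr D1 h, D1, hF1, rfl⟩ ?_
    rintro X ⟨D, hD, rfl⟩
    refine ⟨hD.2 h hh, fun g => ?_⟩
    obtain ⟨u, hu, hadj, D', hD', he⟩ := key D hD h hh g
    exact ⟨u, hu, hadj, D', hD', he.symm⟩
  calc I.card * edn G = ∑ _h ∈ I, edn G := by rw [Finset.sum_const, smul_eq_mul]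
    _ ≤ ∑ h ∈ I, (tr D1 h).card := Finset.sum_le_sum hlayer
    _ = (D1.filter fun p => p.2 ∈ I).card := card_tr_sum D1 I
    _ ≤ D1.card := Finset.card_filter_le _ _
    _ = edn (G.boxProd H) := (hF D1 hD1).1

omit [Fintype V] [Fintype W] in
/-- an isomorphism maps eternal dominating families to eternal dominating families -/
theorem edn_iso_le {G : SimpleGraph V} {H : SimpleGraph W} (e : G ≃g H) {k : ℕ}
    {F : Set (Finset V)} (hF : F.Nonempty) (h : ∀ D ∈ F, D.card = k ∧
      ∀ v : V, ∃ u ∈ D, (u = v ∨ G.Adj u v) ∧ insert v (D.erase u) ∈ F) : edn H ≤ k := by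
  refine edn_le (F := {X | ∃ D ∈ F, X = D.map e.toEquiv.toEmbedding}) ?_ ?_
  · obtain ⟨D, hD⟩ := hF
    exact ⟨_, D, hD, rfl⟩
  · rintro X ⟨D, hD, rfl⟩
    refine ⟨by rw [Finset.card_map]; exact (h D hD).1, fun w => ?_⟩
    obtain ⟨u, hu, hadj, hnew⟩ := (h D hD).2 (e.symm w)
    refine ⟨e u, ?_, ?_, _, hnew, ?_⟩
    · exact Finset.mem_map_of_mem _ hu
    · rcases hadj with he | he
      · left
        rw [he]
        exact e.apply_symm_apply w
      · right
        have h1 := e.map_adj_iff.mpr he
        have h2 : e (e.symm w) = w := e.apply_symm_apply w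
        rwa [h2] at h1
    · ext x
      simp only [Finset.mem_insert, Finset.mem_erase, Finset.mem_map_equiv]
      constructor
      · rintro (hx | ⟨hx1, hx2⟩)
        · left
          rw [hx]
          rfl
        · right
          refine ⟨fun hcon => hx1 ?_, hx2⟩
          have h3 : e (e.toEquiv.symm x) = x := e.toEquiv.apply_symm_apply x
          rw [← h3, hcon]
      · rintro (hx | ⟨hx1, hx2⟩)
        · left
          have h3 : e (e.toEquiv.symm x) = x := e.toEquiv.apply_symm_apply x
          rw [← h3, hx]
          exact e.apply_symm_apply w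
        · right
          refine ⟨fun hcon => hx1 ?_, hx2⟩
          rw [hcon]
          exact e.toEquiv.symm_apply_apply u

omit [Fintype W] in
theorem edn_iso {G : SimpleGraph V} {H : SimpleGraph W} (e : G ≃g H) : edn H ≤ edn G := by
  obtain ⟨F, hF, h⟩ := edn_exists G
  exact edn_iso_le e hF h

/-- a cover of the vertices by `n` cliques gives an eternal dominating family with at most `n` guards -/
theorem edn_le_cover (G : SimpleGraph V) {n : ℕ} (c : V → Fin n)
    (hc : ∀ u v, c u = c v → u ≠ v → G.Adj u v) : edn G ≤ n := by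
  classical
  -- one guard in each nonempty class
  have hcard : (Finset.univ.image c).card ≤ n := by
    refine (Finset.card_le_univ _).trans ?_
    rw [Fintype.card_fin]
  refine (edn_le (k := (Finset.univ.image c).card)
    (F := {D | ∀ i ∈ Finset.univ.image c, ∃! v, v ∈ D ∧ c v = i}) ?_ ?_).trans hcard
  · choose r hr using fun i : {i // i ∈ Finset.univ.image c} => (Finset.mem_image.mp i.2)
    refine ⟨Finset.univ.image r, ?_⟩
    intro i hi
    refine ⟨r ⟨i, hi⟩, ⟨Finset.mem_image_of_mem _ (Finset.mem_univ _), (hr ⟨i, hi⟩).2⟩, ?_⟩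
    rintro v ⟨hv, hcv⟩
    obtain ⟨j, _, rfl⟩ := Finset.mem_image.mp hv
    have h1 : c (r j) = j.1 := (hr j).2
    have h2 : j = ⟨i, hi⟩ := Subtype.ext (h1.symm.trans hcv)
    rw [h2]
  · intro D hD
    constructor
    · -- the map `c` is a bijection from `D` to its image
      refine Finset.card_bij (fun v _ => c v) ?_ ?_ ?_
      · intro v _
        exact Finset.mem_image_of_mem _ (Finset.mem_univ v)
      · intro v hv v' hv' he
        obtain ⟨w, _, huniq⟩ := hD (c v) (Finset.mem_image_of_mem _ (Finset.mem_univ v))
        exact (huniq v ⟨hv, rfl⟩).trans (huniq v' ⟨hv', he.symm⟩).symm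
      · intro i hi
        obtain ⟨w, hw, _⟩ := hD i hi
        exact ⟨w, hw.1, hw.2⟩
    · intro v
      obtain ⟨u, hu, huniq⟩ := hD (c v) (Finset.mem_image_of_mem _ (Finset.mem_univ v))
      refine ⟨u, hu.1, ?_, ?_⟩
      · by_cases he : u = v
        · exact Or.inl he
        · exact Or.inr (hc u v hu.2 he)
      · intro i hi
        by_cases hiv : i = c v
        · subst hiv
          refine ⟨v, ⟨Finset.mem_insert_self _ _, rfl⟩, ?_⟩
          rintro w ⟨hw, hcw⟩
          rcases Finset.mem_insert.mp hw with hw | hw
          · exact hw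
          · rw [Finset.mem_erase] at hw
            exact absurd (huniq w ⟨hw.2, hcw⟩) hw.1
        · obtain ⟨w, hw, hwu⟩ := hD i hi
          refine ⟨w, ⟨?_, hw.2⟩, ?_⟩
          · rw [Finset.mem_insert, Finset.mem_erase]
            refine Or.inr ⟨?_, hw.1⟩
            rintro rfl
            exact hiv (hw.2.symm.trans hu.2)
          · rintro w' ⟨hw', hcw'⟩
            rcases Finset.mem_insert.mp hw' with h1 | h1
            · exact absurd (h1 ▸ hcw').symm hiv
            · exact hwu w' ⟨Finset.mem_of_mem_erase h1, hcw'⟩

end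

end Pool.Agent.Lib.MP_56aee0_co
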